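import Mathlib
import Pool.Agent.Y1.CT.Main
import Pool.Agent.Y1.CT.Thms
import Pool.Agent.Run7.h479.SO.MainI
import Pool.Agent.Run7.h479.SO.Criteria

/-!
# The noncommutative standard conjecture D and products with abelian varieties whose slopes on a half
orbit do not sum to a sum of prime divisors of the dimension

Let `π i` be finitely many Weil numbers for `q = p ^ a` in CM fields `F i` of degree `2 n i`, with
`π i * conj (π i) = q`, and let `f i` be monic polynomials whose complex roots are conjugates of `π i`
(`IsPolyOf`), for instance the characteristic polynomials of Frobenius of the abelian varieties in
the isogeny classes of the `π i` over the field with `q` elements. We assume (`HoldsForHalfOrbits`):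

* (`HalfOrbit`) There is a set `O` of complex embeddings of `F i`, one of each pair of complex
  conjugate embeddings, which is an orbit of a group of automorphisms of `ℂ` that acts on `O`
  through a commutative group. By Chebotarev's density theorem it is enough that some prime number is
  inert in the maximal real subfield of `F i` and splits in `F i` (then one automorphism generates a
  group with such an orbit; this is proved in the file `Criteria.lean`). If `F i` contains an
  imaginary quadratic field `E`, it is enough that some prime number is inert in the maximal real
  subfield (whose normal closure is real, and so linearly disjoint from `E`), and `O` is the set of
  the embeddings that extend a given embedding of `E`.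
* (`GoodSlopes`) We write `cdev ν a x φ = 2 ord_p (x) - a` for the deviation of the slope of `x` at
  the embedding `φ` from the middle, where an isomorphism `ν` of the algebraic closure of `ℚ_p` with
  `ℂ` makes `φ` a `p`-adic embedding. For some `ν` the sum of the deviations of `π i` over `O` is not
  zero; and for some `ν` the deviations of `π i` on `O` are `b w + c` with real numbers `b ≠ 0`, `c`
  and natural numbers `w`, such that **the sum `k` of the numbers `w` over `O` is not a sum of prime
  divisors of `n i`** (with repetitions; `0` is the empty sum).
* (`Separated`, only if there are several fields) For `i ≠ i'` some automorphism acts on the complex
  embeddings of each of the fields as `1` or as the complex conjugation, as `1` for `F i` and as the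
  complex conjugation for `F i'`.

For instance let there be one field and let the slopes be `λ` and `1 - λ` only, `λ ≠ 1/2` (`λ = 0` is
the ordinary case). Then `w` can be the characteristic function of the set of the embeddings in `O`
with slope `1 - λ`, and `k` is the number of these embeddings; by the same argument for the
complement, it is enough that `k` or `n - k` is not a sum of prime divisors of `n` (and `2 k ≠ n`).
For `n = 15` the only signatures `(k, n - k)` which are excluded are those with `k` or `n - k` equal
to `0, 3, 5, 6`. In general the condition is true if `0 < k` is less than all prime divisors of `n`,
and if `k = r s - r - s` and `n` is divisible by no primes other than `r` and `s` (proved in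
`Criteria.lean`). Conversely, the condition cannot be improved for the cyclic group of order `n`: if
`k` is a sum of prime divisors of `n` then it is the sum of the values of a function `w` which is a
sum of characteristic functions of cosets of subgroups of prime order, and the translates of this
`w` do not span the functions on the group.

Let `A` be an abelian variety over the field with `Q = q ^ s` elements which is isogenous to a product
of powers of abelian varieties coming from the field with `q` elements, with characteristic
polynomials `f i`, and let `Z` be **any** smooth projective variety over the field with `Q` elements
such that the eigenvalues `ρ` of Frobenius on the cohomology of `Z` and their conjugates are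
independent of the fields `F i` (`Independent`): for each complex embedding `ψ` of `F i` there is an
automorphism `τ` of `ℂ` which fixes a power of `ρ` and is the complex conjugation on `ψ (F i)`. This is
so if the eigenvalues have powers in a number field which is linearly disjoint from the normal
closures of the `F i`, or powers in a totally real field (take for `τ` the complex conjugation).

Let `𝒜` be a smooth proper dg category whose noncommutative motive with rational coefficients is a
direct summand of the one of `Z`, for instance the category of perfect complexes on `Z`, or a
component of a semi-orthogonal decomposition of it. It is given by an idempotent `e` in the ring
`K_0(Z × Z)_ℚ`, which is identified with `CH(Z × Z)_ℚ` (all degrees together) by the Chern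
character multiplied by the square root of the Todd class. The noncommutative motive of the dg
category `perf(A) ⊗ 𝒜` is `(A × Z, 1 × e)`.
Moreover `TP(𝒜)` is the direct summand cut out by `e` of the crystalline cohomology of `Z`.

There are finitely many products `D j` of divisors on `A` such that
`K_0(perf(A) ⊗ 𝒜)_ℚ = ⨁ D j × K_0(𝒜)_ℚ` modulo homological equivalence, and the same for the
numerically trivial classes (the kernels of the Euler pairings). In particular **the noncommutative
standard conjecture of type D for `perf(A) ⊗ 𝒜` is equivalent to the one for `𝒜`** (`NCHomTimes`); no
motive is assumed to be finite-dimensional. The Frobenius endomorphism acts on `CH^i(A × Z)_ℚ` as
multiplication by `Q ^ i`.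

The framework (`TheoryData`, `IsChow`, `IsWeil`) is the one of helper492: the Chow groups `C` with
their pull-backs, push-forwards and products, and a Weil cohomology theory `H` with coefficients in
an algebraically closed field, on a class `𝒱` of smooth proper varieties over `k`. The deduction of
the conclusion from the absence of relations is due to helper484 and helper1.

The starting results treat the case of large Galois groups and the case of almost all slope types.
Here the degrees are arbitrary, the Galois groups may be as small as cyclic groups, and the condition
is explicit.

The proof. Suppose that the product of `ρ` and of some powers `φ (π i) ^ m (i, φ)` is a power of
`q`, up to a root of unity, for an eigenvalue `ρ` as above. For an automorphism `τ` which fixes a power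
of `ρ` and is the complex conjugation on the embeddings of one of the fields the quotient of the
relation and its image is a relation without `ρ`. So it is enough to consider relations without `ρ`.
Let `c (i, φ) = m (i, φ) - m (i, conj φ)`. The `p`-adic valuations of the images under the
automorphisms `σ` give `∑ c (i, φ) * cdev (σ φ) = 0`. `Separated` and Dedekind's theorem on the linear
independence of characters (of the group of the automorphisms acting as `± 1`) give these relations
for every `i` separately. The sum over the orbit `O` and the first slope condition give `∑_O c = 0`,
and then the second slope condition gives `∑_O c (φ) w (σ φ) = 0` for all `σ` in the group. The
commutative transitive group `B` of permutations of `O` is simply transitive, so `w` is a function on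
the group `B`, and if `c ≠ 0`, then a Fourier coefficient `∑ w (b) ψ (b)` of `w` for a character `ψ`
of `B` is zero. Its terms are `k` roots of unity of order dividing `n`, and by the theorem of Lam and
Leung (1996) on vanishing sums of roots of unity the number `k` of terms is a sum of prime divisors of
`n`, a contradiction. The theorem of Lam and Leung is proved in the files `LL`.
-/

set_option autoImplicit false

namespace Pool.Agent.Results.MP_28af06_ag.VanishingSums

open NumberField Pool.Agent.Y1.CT Pool.Agent.Run7.h142.TF Pool.Agent.Run7.h479.SO

/-- **The noncommutative standard conjecture of type D for `perf(A) ⊗ 𝒜` is equivalent to the one for
`𝒜`, for the abelian varieties `A` whose slopes on a half orbit do not sum to a sum of prime divisors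
and all independent `𝒜`.** -/
theorem result : HoldsForHalfOrbits (fun _ K _ q f => NCHomTimes K q f) :=
  holdsForHalfOrbits_indep fun _ _ _ _ _ hQ hR => ncHomTimes hQ hR

end Pool.Agent.Results.MP_28af06_ag.VanishingSums
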